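import Pool.Agent.R280.PTrace

/-!
# Limits of `p`-traces as `p → 0` (MP_4d6431_an, Q1 and Q2: proved)

Lower bound: let `A = {0, 1, 3}` and `M = A ∪ {i/(m+1)}`; see `Pool.Agent.R280.PTrace`. Upper bound (Basso):
if `A ⊆ M` are finite and `|M ∖ A| = m`, there is an `(m+1)`-Lipschitz retraction `M → A`. It is
constructed by induction over `|M ∖ A|`: choose a pair `y ∈ A`, `z ∉ A` with smallest distance, apply the
induction hypothesis to `A ∪ {z}` and compose with `z ↦ y`.
-/

set_option autoImplicit false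

open Set Topology Filter Pool.Agent.R280.PTrace
open scoped ENNReal

namespace Pool.Agent.Results.MP_4d6431_an.TraceLimits

/-- `ae_p(n)`, the supremum of `ae_p(A)` over the (nonempty) metric spaces `A` with `|A| ≤ n`. -/
noncomputable def aeCard (p : ℝ) (n : ℕ) : ℝ≥0∞ :=
  sSup {c | ∃ (A : Type) (_ : MetricSpace A), Nonempty A ∧ Finite A ∧ Nat.card A ≤ n ∧
    c = ae.{0, 0} p A}

/-- `S(n, m)`, the supremum of the limits `lim_{p → 0} t_p(A, M)` over all metric spaces `A ⊆ M` with
`A` nonempty, `|A| ≤ n` and `|M ∖ A| ≤ m`. -/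
noncomputable def S (n m : ℕ) : ℝ≥0∞ :=
  sSup {L | ∃ (M : Type) (_ : MetricSpace M) (A : Set M), A.Nonempty ∧ A.Finite ∧ Aᶜ.Finite ∧
    A.ncard ≤ n ∧ Aᶜ.ncard ≤ m ∧
      Tendsto (fun p : ℝ => trace.{0, 0} p A) (𝓝[>] 0) (𝓝 L)}

section retraction

variable {M : Type} [MetricSpace M] [Finite M]

/-- the inductive statement -/
lemma exists_retraction_aux (k : ℕ) : ∀ A : Set M, A.Nonempty → Aᶜ.ncard = k →
    ∃ (r : M → M) (b : M → ℝ), (∀ x ∈ A, r x = x) ∧ (∀ x, r x ∈ A) ∧ (∀ x, 0 ≤ b x) ∧
      (∀ x ∉ A, ∀ y, r y ≠ r x → b x ≤ dist x y) ∧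
      (∀ x ∉ A, dist x (r x) ≤ ({u | u ∉ A ∧ r u = r x} : Set M).ncard * b x) ∧
      (∀ x ∉ A, ∃ u ∉ A, dist (r x) u ≤ b x) := by
  classical
  induction k with
  | zero =>
    intro A hA hk
    have h1 : Aᶜ = ∅ := (Set.ncard_eq_zero (Set.toFinite _)).1 hk
    have h2 : ∀ x, x ∈ A := by
      intro x
      by_contra hx
      have : x ∈ Aᶜ := hx
      rw [h1] at this
      exact this
    exact ⟨id, fun _ => 0, fun x _ => rfl, h2, fun _ => le_rfl, fun x hx => absurd (h2 x) hx,
      fun x hx => absurd (h2 x) hx, fun x hx => absurd (h2 x) hx⟩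
  | succ k ih =>
    intro A hA hk
    -- the closest pair
    have hne : (A ×ˢ Aᶜ).Nonempty := by
      obtain ⟨a, ha⟩ := hA
      have h1 : Aᶜ.Nonempty := by
        rw [Set.nonempty_iff_ne_empty]
        intro h
        rw [h, Set.ncard_empty] at hk
        omega
      obtain ⟨c, hc⟩ := h1
      exact ⟨(a, c), ha, hc⟩
    obtain ⟨⟨y, z⟩, ⟨hy, hz⟩, hmin⟩ := Set.exists_min_image (A ×ˢ Aᶜ) (fun q : M × M => dist q.1 q.2)
      (Set.toFinite _) hne
    have hz' : z ∉ A := hz
    have hyz : y ≠ z := fun h => hz' (h ▸ hy)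
    set e := dist y z with he
    have he0 : 0 ≤ e := dist_nonneg
    have hmin' : ∀ a ∈ A, ∀ c, c ∉ A → e ≤ dist a c := fun a ha c hc => hmin (a, c) ⟨ha, hc⟩
    have hcomp : (insert z A)ᶜ = Aᶜ \ {z} := by
      ext x
      constructor
      · intro hx
        exact ⟨fun h => hx (Or.inr h), fun h => hx (Or.inl h)⟩
      · rintro ⟨h1, h2⟩ (h | h)
        · exact h2 h
        · exact h1 h
    obtain ⟨r, b, h1, h2, h0, h3, h4, h5⟩ := ih (insert z A) (Set.insert_nonempty _ _) (by
      rw [hcomp, Set.ncard_sdiff_singleton_of_mem hz, hk]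
      rfl)
    have hrz : r z = z := h1 z (mem_insert _ _)
    -- the new retraction
    set c : M → M := fun x => if x = z then y else x with hc
    have hcz : c z = y := if_pos rfl
    have hcA : ∀ x ∈ A, c x = x := fun x hx => if_neg (fun h : x = z => hz' (h ▸ hx))
    have hcmem : ∀ x ∈ insert z A, c x ∈ A := by
      intro x hx
      rcases hx with rfl | hx
      · rw [hcz]; exact hy
      · rw [hcA x hx]; exact hx
    have hrA : ∀ x, r x ≠ z → r x ∈ A := fun x hx => (h2 x).resolve_left hx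
    -- lower bound for `b`
    have hbe : ∀ x, x ∉ insert z A → r x ≠ z → e ≤ b x := by
      intro x hx hrx
      obtain ⟨u, hu, hu2⟩ := h5 x hx
      exact (hmin' _ (hrA x hrx) u fun h => hu (mem_insert_of_mem _ h)).trans hu2
    set b' : M → ℝ := fun x => if x = z then e else max (b x) e with hb'
    have hb'z : b' z = e := if_pos rfl
    have hb'x : ∀ x, x ≠ z → b' x = max (b x) e := fun x hx => if_neg hx
    have hb'e : ∀ x, e ≤ b' x := by
      intro x
      by_cases hx : x = z
      · rw [hx, hb'z]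
      · rw [hb'x x hx]; exact le_max_right _ _
    refine ⟨fun x => c (r x), b', ?_, fun x => hcmem _ (h2 x), fun x => he0.trans (hb'e x), ?_, ?_, ?_⟩
    · intro x hx
      show c (r x) = x
      rw [h1 x (mem_insert_of_mem _ hx), hcA x hx]
    · -- (i)
      intro x hx w hwx
      have hwx' : c (r w) ≠ c (r x) := hwx
      have hrne : r w ≠ r x := fun h => hwx' (by rw [h])
      have he' : e ≤ dist x w := by
        by_cases hwA : w ∈ A
        · rw [dist_comm]; exact hmin' w hwA x hx
        by_cases hxz : x = z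
        · subst hxz
          have hwz : w ≠ x := fun h => hrne (by rw [h])
          have hwI : w ∉ insert x A := fun h => h.elim hwz hwA
          have hrw : r w ≠ x := fun h => hrne (by rw [h, hrz])
          rw [dist_comm]
          exact (hbe w hwI hrw).trans (h3 w hwI x (fun h => hrne h.symm))
        · have hxI : x ∉ insert z A := fun h => h.elim hxz hx
          by_cases hrx : r x = z
          · have hrw : r w ≠ z := fun h => hrne (by rw [h, hrx])
            have hwz : w ≠ z := fun h => hrw (by rw [h, hrz])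
            have hwI : w ∉ insert z A := fun h => h.elim hwz hwA
            rw [dist_comm]
            exact (hbe w hwI hrw).trans (h3 w hwI x (fun h => hrne h.symm))
          · exact (hbe x hxI hrx).trans (h3 x hxI w hrne)
      by_cases hxz : x = z
      · rw [hxz, hb'z, ← hxz]; exact he'
      · rw [hb'x x hxz]
        exact max_le (h3 x (fun h => h.elim hxz hx) w hrne) he'
    · -- (ii)
      intro x hx
      show dist x (c (r x)) ≤ ({u | u ∉ A ∧ c (r u) = c (r x)} : Set M).ncard * b' x
      by_cases hxz : x = z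
      · subst hxz
        rw [hrz, hcz, hb'z, dist_comm]
        have h6 : 1 ≤ ({u | u ∉ A ∧ c (r u) = y} : Set M).ncard :=
          (Set.ncard_pos (Set.toFinite _)).2 ⟨x, hx, by rw [hrz, hcz]⟩
        have h7 : (1 : ℝ) ≤ ({u | u ∉ A ∧ c (r u) = y} : Set M).ncard := by exact_mod_cast h6
        calc dist y x = 1 * e := (one_mul _).symm
          _ ≤ _ := mul_le_mul_of_nonneg_right h7 he0
      · have hxI : x ∉ insert z A := fun h => h.elim hxz hx
        have h6 := h4 x hxI
        have hbb : b x ≤ b' x := by rw [hb'x x hxz]; exact le_max_left _ _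
        by_cases hrx : r x = z
        · rw [hrx, hcz]
          rw [hrx] at h6
          have h7 : ({u | u ∉ insert z A ∧ r u = z} : Set M).ncard + 1 ≤
              ({u | u ∉ A ∧ c (r u) = y} : Set M).ncard := by
            rw [← Set.ncard_insert_of_notMem (a := z)
              (s := {u | u ∉ insert z A ∧ r u = z}) (fun h => h.1 (mem_insert _ _)) (Set.toFinite _)]
            refine Set.ncard_le_ncard ?_ (Set.toFinite _)
            rintro u (rfl | hu)
            · exact ⟨hz', by rw [hrz, hcz]⟩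
            · exact ⟨fun h => hu.1 (mem_insert_of_mem _ h), by rw [hu.2, hcz]⟩
          have h8 : (({u | u ∉ insert z A ∧ r u = z} : Set M).ncard : ℝ) + 1 ≤
              ({u | u ∉ A ∧ c (r u) = y} : Set M).ncard := by exact_mod_cast h7
          calc dist x y ≤ dist x z + dist z y := dist_triangle _ _ _
            _ ≤ ({u | u ∉ insert z A ∧ r u = z} : Set M).ncard * b' x + b' x := by
                refine add_le_add (h6.trans (mul_le_mul_of_nonneg_left hbb (Nat.cast_nonneg _))) ?_
                rw [dist_comm]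
                exact hb'e x
            _ = (({u | u ∉ insert z A ∧ r u = z} : Set M).ncard + 1) * b' x := by ring
            _ ≤ _ := mul_le_mul_of_nonneg_right h8 ((h0 x).trans hbb)
        · rw [hcA _ (hrA x hrx)]
          have h7 : ({u | u ∉ insert z A ∧ r u = r x} : Set M).ncard ≤
              ({u | u ∉ A ∧ c (r u) = r x} : Set M).ncard := by
            refine Set.ncard_le_ncard ?_ (Set.toFinite _)
            rintro u hu
            refine ⟨fun h => hu.1 (mem_insert_of_mem _ h), ?_⟩
            rw [hu.2, hcA _ (hrA x hrx)]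
          have h8 : (({u | u ∉ insert z A ∧ r u = r x} : Set M).ncard : ℝ) ≤
              ({u | u ∉ A ∧ c (r u) = r x} : Set M).ncard := by exact_mod_cast h7
          refine h6.trans ?_
          exact mul_le_mul h8 hbb (h0 x) (Nat.cast_nonneg _)
    · -- (iii)
      intro x hx
      show ∃ u ∉ A, dist (c (r x)) u ≤ b' x
      by_cases hrx : r x = z
      · exact ⟨z, hz', by rw [hrx, hcz]; exact hb'e x⟩
      · have hxz : x ≠ z := fun h => hrx (by rw [h, hrz])
        have hxI : x ∉ insert z A := fun h => h.elim hxz hx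
        obtain ⟨u, hu, hu2⟩ := h5 x hxI
        refine ⟨u, fun h => hu (mem_insert_of_mem _ h), ?_⟩
        rw [hcA _ (hrA x hrx), hb'x x hxz]
        exact hu2.trans (le_max_left _ _)

/-- There is an `(m+1)`-Lipschitz retraction onto `A`, `m = |M ∖ A|`. -/
lemma exists_retraction (A : Set M) (hA : A.Nonempty) : ∃ r : M → M, (∀ x ∈ A, r x = x) ∧
    (∀ x, r x ∈ A) ∧ ∀ x y, dist (r x) (r y) ≤ ((Aᶜ.ncard : ℝ) + 1) * dist x y := by
  classical
  obtain ⟨r, b, h1, h2, h0, h3, h4, -⟩ := exists_retraction_aux _ A hA rfl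
  refine ⟨r, h1, h2, fun x y => ?_⟩
  have hd : 0 ≤ dist x y := dist_nonneg
  by_cases hxy : r x = r y
  · rw [hxy, dist_self]; positivity
  -- distances to the retraction
  have key : ∀ x y, r y ≠ r x → dist x (r x) ≤
      ({u | u ∉ A ∧ r u = r x} : Set M).ncard * dist x y := by
    intro x y hne
    by_cases hx : x ∈ A
    · rw [h1 x hx, dist_self]; positivity
    · exact (h4 x hx).trans (mul_le_mul_of_nonneg_left (h3 x hx y hne) (Nat.cast_nonneg _))
  have k1 := key x y (fun h => hxy h.symm)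
  have k2 := key y x hxy
  have hcard : ({u | u ∉ A ∧ r u = r x} : Set M).ncard + ({u | u ∉ A ∧ r u = r y} : Set M).ncard ≤
      Aᶜ.ncard := by
    rw [← Set.ncard_union_eq _ (Set.toFinite _) (Set.toFinite _)]
    · refine Set.ncard_le_ncard ?_ (Set.toFinite _)
      rintro u (hu | hu)
      · exact hu.1
      · exact hu.1
    · rw [Set.disjoint_left]
      intro u hu hu'
      exact hxy (hu.2.symm.trans hu'.2)
  have hcard' : (({u | u ∉ A ∧ r u = r x} : Set M).ncard : ℝ) +
      ({u | u ∉ A ∧ r u = r y} : Set M).ncard ≤ Aᶜ.ncard := by exact_mod_cast hcard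
  have h5 : dist (r x) (r y) ≤ dist x (r x) + dist x y + dist y (r y) := by
    have e1 := dist_triangle4 (r x) x y (r y)
    rwa [dist_comm (r x) x] at e1
  rw [dist_comm y x] at k2
  have h6 := mul_le_mul_of_nonneg_right hcard' hd
  linarith

end retraction

lemma hasExt_of_retraction {p : ℝ} {M : Type} [MetricSpace M] {A : Set M} {C : ℝ} (_hC : 0 ≤ C)
    {r : M → M} (h1 : ∀ x ∈ A, r x = x) (h2 : ∀ x, r x ∈ A)
    (h3 : ∀ x y, dist (r x) (r y) ≤ C * dist x y) : HasExt.{0, 0} p A C := by
  intro Z _ _ N _ f K hK hf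
  refine ⟨fun x => f (r x), fun x hx => congrArg f (h1 x hx), fun x _ y _ => ?_⟩
  refine (hf _ (h2 x) _ (h2 y)).trans ?_
  calc K * dist (r x) (r y) ≤ K * (C * dist x y) := mul_le_mul_of_nonneg_left (h3 x y) hK
    _ = C * K * dist x y := by ring

lemma trace_le {p : ℝ} {M : Type} [MetricSpace M] {A : Set M} (hA : A.Nonempty) (hAf : A.Finite)
    (hAc : Aᶜ.Finite) {m : ℕ} (hm : Aᶜ.ncard ≤ m) :
    trace.{0, 0} p A ≤ ENNReal.ofReal ((m : ℝ) + 1) := by
  have : Finite M := by
    rw [← Set.finite_univ_iff, ← Set.union_compl_self A]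
    exact hAf.union hAc
  obtain ⟨r, h1, h2, h3⟩ := exists_retraction A hA
  refine sInf_le ⟨(m : ℝ) + 1, by positivity, hasExt_of_retraction (by positivity) h1 h2
    (fun x y => (h3 x y).trans (mul_le_mul_of_nonneg_right ?_ dist_nonneg)), rfl⟩
  have : (Aᶜ.ncard : ℝ) ≤ m := by exact_mod_cast hm
  linarith

/-! ### The example -/

lemma pts_eq (m : ℕ) (x : pts m) : (∃ i, i ≤ m + 1 ∧ x = z m i) ∨ x = far m := by
  obtain ⟨x, ⟨i, hi, hx⟩ | hx⟩ := x
  · refine Or.inl ⟨i, hi, Subtype.ext ?_⟩
    rw [z_val hi]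
    exact hx
  · exact Or.inr (Subtype.ext hx)

lemma finite_pts (m : ℕ) : Finite (pts m) := by
  have h1 : (Set.univ : Set (pts m)) ⊆ (fun i => z m i) '' (Set.Iic (m + 1)) ∪ {far m} := by
    intro x _
    rcases pts_eq m x with ⟨i, hi, rfl⟩ | rfl
    · exact Or.inl ⟨i, hi, rfl⟩
    · exact Or.inr rfl
  rw [← Set.finite_univ_iff]
  exact (((Set.finite_Iic _).image _).union (Set.finite_singleton _)).subset h1

lemma A3_sub (m : ℕ) : A3 m ⊆ {z m 0, z m (m + 1), far m} := by
  rintro x (hx | hx | hx)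
  · left
    apply Subtype.ext
    rw [hx, z_val (Nat.zero_le _)]
    simp
  · right; left
    apply Subtype.ext
    rw [hx, z_val le_rfl]
    push_cast
    exact (div_self (by positivity)).symm
  · right; right
    exact Subtype.ext hx

lemma A3_ncard (m : ℕ) : (A3 m).ncard ≤ 3 := by
  refine (Set.ncard_le_ncard (A3_sub m) (Set.toFinite _)).trans ?_
  refine (Set.ncard_insert_le _ _).trans ?_
  have h1 := Set.ncard_insert_le (z m (m + 1)) ({far m} : Set (pts m))
  rw [Set.ncard_singleton] at h1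
  omega

lemma A3_compl_ncard (m : ℕ) : (A3 m)ᶜ.ncard ≤ m := by
  have h1 : (A3 m)ᶜ ⊆ (fun i => z m i) '' (Set.Icc 1 m) := by
    intro x hx
    rcases pts_eq m x with ⟨i, hi, rfl⟩ | rfl
    · refine ⟨i, ⟨?_, ?_⟩, rfl⟩
      · by_contra h
        have h0 : i = 0 := by omega
        subst h0
        exact hx (Or.inl (by rw [z_val (Nat.zero_le _)]; simp))
      · by_contra h
        have h0 : i = m + 1 := by omega
        subst h0
        refine hx (Or.inr (Or.inl ?_))
        rw [z_val le_rfl]
        push_cast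
        exact div_self (by positivity)
    · exact absurd (Or.inr (Or.inr rfl)) hx
  refine (Set.ncard_le_ncard h1 ((Set.finite_Icc _ _).image _)).trans ?_
  refine (Set.ncard_image_le (Set.finite_Icc _ _)).trans ?_
  rw [Set.ncard_eq_toFinset_card', Set.toFinset_Icc, Nat.card_Icc]
  omega

lemma A3_nonempty (m : ℕ) : (A3 m).Nonempty := ⟨far m, Or.inr (Or.inr rfl)⟩

lemma eventually_le_one : ∀ᶠ p : ℝ in 𝓝[>] 0, p ≤ 1 :=
  mem_nhdsWithin_of_mem_nhds (Iic_mem_nhds zero_lt_one)

lemma tendsto_trace (m : ℕ) : Tendsto (fun p : ℝ => trace.{0, 0} p (A3 m)) (𝓝[>] 0)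
    (𝓝 (ENNReal.ofReal ((m : ℝ) + 1))) := by
  have := finite_pts m
  refine tendsto_of_tendsto_of_tendsto_of_le_of_le' (tendsto_bound m) tendsto_const_nhds ?_
    (Eventually.of_forall fun p => trace_le (A3_nonempty m) (Set.toFinite _) (Set.toFinite _)
      (A3_compl_ncard m))
  filter_upwards [self_mem_nhdsWithin, eventually_le_one] with p hp0 hp1
  exact le_trace hp0 hp1 m

/-- Q1: `ae_p(n) → ∞` as `p → 0` for every `n ≥ 3`. Q2: `S(n, m) = m + 1` for all `n ≥ 3`, `m ≥ 2`. -/
theorem result :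
    (∀ n : ℕ, 3 ≤ n → Tendsto (fun p : ℝ => aeCard p n) (𝓝[>] 0) (𝓝 ∞)) ∧
    ∀ n m : ℕ, 3 ≤ n → 2 ≤ m → S n m = (m : ℝ≥0∞) + 1 := by
  have hcast : ∀ m : ℕ, ENNReal.ofReal ((m : ℝ) + 1) = (m : ℝ≥0∞) + 1 := by
    intro m
    rw [ENNReal.ofReal_add (Nat.cast_nonneg _) zero_le_one, ENNReal.ofReal_natCast,
      ENNReal.ofReal_one]
  constructor
  · intro n hn
    rw [ENNReal.tendsto_nhds_top_iff_nat]
    intro m
    have h1 := tendsto_trace m
    have h2 : (m : ℝ≥0∞) < ENNReal.ofReal ((m : ℝ) + 1) := by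
      rw [← ENNReal.ofReal_natCast]
      exact (ENNReal.ofReal_lt_ofReal_iff (by positivity)).2 (by linarith)
    filter_upwards [h1.eventually_const_lt h2] with p hp
    refine hp.trans_le ?_
    have := finite_pts m
    have h3 : trace.{0, 0} p (A3 m) ≤ ae.{0, 0} p (A3 m) := by
      refine le_sSup ⟨pts m, inferInstance, Subtype.val, isometry_subtype_coe, ?_⟩
      rw [Subtype.range_coe]
    refine h3.trans (le_sSup ⟨A3 m, inferInstance, (A3_nonempty m).to_subtype, inferInstance, ?_,
      rfl⟩)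
    rw [Nat.card_coe_set_eq]
    exact (A3_ncard m).trans hn
  · intro n m hn _
    rw [← hcast]
    apply le_antisymm
    · refine sSup_le ?_
      rintro L ⟨M, _, A, hA, hAf, hAc, -, hm, hL⟩
      exact le_of_tendsto' hL fun p => trace_le hA hAf hAc hm
    · have := finite_pts m
      exact le_sSup ⟨pts m, inferInstance, A3 m, A3_nonempty m, Set.toFinite _, Set.toFinite _,
        (A3_ncard m).trans hn, A3_compl_ncard m, tendsto_trace m⟩

end Pool.Agent.Results.MP_4d6431_an.TraceLimits
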